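import Pool.Agent.helper73.BS.Spec

set_option autoImplicit false

namespace Pool.Agent.BS

open Matrix Module Pool.Agent.UG Pool.Agent.H48SL Pool.Agent.SHL

/-! ### polynomial curves -/

theorem RS_eval {σ : Type} (p : σ → Polynomial ℚ) (F : MvPolynomial σ ℚ) (t : ℚ) :
    MvPolynomial.eval (fun a => (p a).eval t) F = (MvPolynomial.aeval p F : Polynomial ℚ).eval t := by
  induction F using MvPolynomial.induction_on with
  | C c => simp
  | add P Q hP hQ => rw [map_add, map_add, Polynomial.eval_add, hP, hQ]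
  | mul_X P a hP => rw [map_mul, map_mul, Polynomial.eval_mul, hP, MvPolynomial.eval_X, MvPolynomial.aeval_X]

theorem RS_mem {n : ℕ} {f : ℚ → MQ n} (hf : PC f) (S : Set (MQ n)) (h : ∀ j : ℕ, f (j : ℚ) ∈ S) (t : ℚ) :
    f t ∈ ZQ S := by
  intro F hF
  choose p hp using hf
  have key : ∀ t : ℚ, MvPolynomial.eval (fun a : Fin n × Fin n => f t a.1 a.2) F =
      (MvPolynomial.aeval (fun a : Fin n × Fin n => p a.1 a.2) F : Polynomial ℚ).eval t := by
    intro t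
    rw [← RS_eval]
    simp only [hp]
  have h0 : (MvPolynomial.aeval (fun a : Fin n × Fin n => p a.1 a.2) F : Polynomial ℚ) = 0 := by
    apply Polynomial.eq_zero_of_infinite_isRoot
    apply Set.Infinite.mono (s := Set.range (fun j : ℕ => (j : ℚ)))
    · rintro _ ⟨j, rfl⟩
      show Polynomial.eval (j : ℚ) _ = 0
      rw [← key]
      exact hF _ (h j)
    · exact Set.infinite_range_of_injective Nat.cast_injective
  rw [key, h0, Polynomial.eval_zero]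

theorem RS_pc_id : ∀ {n : ℕ} {f : ℚ → MQ n}, PC f → PC (fun t => t • f t) := by
  intro n f hf
  have h := hf.smul Polynomial.X
  simpa only [Polynomial.eval_X] using h

theorem RS_pc_smul {n : ℕ} {f : ℚ → MQ n} (hf : PC f) (c : ℚ) : PC (fun t => c • f t) := by
  have h := hf.smul (Polynomial.C c)
  simpa only [Polynomial.eval_C] using h

theorem RS_pc_aeval {n : ℕ} {f : ℚ → MQ n} (hf : PC f) (Q : Polynomial ℚ) :
    PC (fun t => Polynomial.aeval (f t) Q) := by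
  simp only [Polynomial.aeval_eq_sum_range]
  exact PC.sum _ _ fun i _ => RS_pc_smul (hf.pow i) _

/-- first order expansion -/
def RS_J {n : ℕ} (f : ℚ → MQ n) (M : MQ n) : Prop :=
  ∃ r : ℚ → MQ n, PC r ∧ ∀ t, f t = 1 + t • M + t ^ 2 • r t

theorem RS_J_pc {n : ℕ} {f : ℚ → MQ n} {M : MQ n} (h : RS_J f M) : PC f := by
  obtain ⟨r, hr, h⟩ := h
  have e : f = fun t => 1 + t • M + t ^ 2 • r t := funext h
  rw [e]
  refine ((PC.const 1).add (RS_pc_id (PC.const M))).add ?_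
  have h2 := hr.smul (Polynomial.X ^ 2)
  simpa only [Polynomial.eval_X, Polynomial.eval_pow] using h2

theorem RS_J_mul {n : ℕ} {f g : ℚ → MQ n} {M N : MQ n} (hf : RS_J f M) (hg : RS_J g N) :
    RS_J (fun t => f t * g t) (M + N) := by
  obtain ⟨r, hr, hf⟩ := hf
  obtain ⟨s, hs, hg⟩ := hg
  refine ⟨fun t => r t + s t + M * N + t • (M * s t + r t * N) + (t • r t) * (t • s t), ?_, fun t => ?_⟩
  · exact (((hr.add hs).add (PC.const (M * N))).add
      (RS_pc_id (((PC.const M).mul hs).add (hr.mul (PC.const N))))).add ((RS_pc_id hr).mul (RS_pc_id hs))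
  · show f t * g t = 1 + t • (M + N) + t ^ 2 • (r t + s t + M * N + t • (M * s t + r t * N) + (t • r t) * (t • s t))
    rw [hf, hg]
    simp only [mul_add, add_mul, smul_mul_assoc, mul_smul_comm, one_mul, mul_one, smul_add, smul_smul]
    module

theorem RS_J_exp {n : ℕ} {X : MQ n} (hX : IsNilpotent X) :
    RS_J (fun t => IsNilpotent.exp (t • X)) X := by
  obtain ⟨m, hm⟩ := hX
  have hm2 : X ^ (m + 2) = 0 := by rw [pow_add, hm, zero_mul]
  refine ⟨fun t => ∑ i ∈ Finset.range m, (((i + 2).factorial : ℚ)⁻¹) • (t • X) ^ i * X ^ 2, ?_, fun t => ?_⟩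
  · refine PC.sum _ _ fun i _ => ?_
    exact (RS_pc_smul ((RS_pc_id (PC.const X)).pow i) _).mul (PC.const _)
  · have h : (t • X) ^ (m + 2) = 0 := by rw [smul_pow, hm2, smul_zero]
    show IsNilpotent.exp (t • X) = _
    rw [IsNilpotent.exp_eq_sum h, Finset.sum_range_succ', Finset.sum_range_succ']
    have e1 : ∀ i, ((((i + 1 + 1).factorial : ℕ) : ℚ)⁻¹) • (t • X) ^ (i + 1 + 1) =
        t ^ 2 • ((((i + 2).factorial : ℕ) : ℚ)⁻¹ • (t • X) ^ i * X ^ 2) := by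
      intro i
      have e2 : (t • X) ^ (i + 1 + 1) = t ^ 2 • ((t • X) ^ i * X ^ 2) := by
        rw [show i + 1 + 1 = i + 2 from rfl, pow_add, smul_pow t X 2, mul_smul_comm]
      rw [e2, smul_comm, smul_mul_assoc]
    simp only [e1]
    rw [← Finset.smul_sum]
    simp only [Nat.factorial, zero_add, pow_one, pow_zero, Nat.cast_one, inv_one, one_smul, mul_one]
    abel

theorem RS_J_log {n : ℕ} {f : ℚ → MQ n} {M : MQ n} (hf : RS_J f M) (P : Polynomial ℚ)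
    (hP : Polynomial.X ^ 2 ∣ P - Polynomial.X) (𝔲 : Submodule ℚ (MQ n))
    (h : ∀ t, Polynomial.aeval (f t - 1) P ∈ 𝔲) : M ∈ 𝔲 := by
  have hpc := RS_J_pc hf
  obtain ⟨r, hr, hf⟩ := hf
  obtain ⟨Q, hQ⟩ := hP
  have hP' : P = Polynomial.X + Polynomial.X ^ 2 * Q := by rw [← hQ]; ring
  have hfe : PC (fun t => f t - 1) := by
    have h1 := hpc.add (PC.const (-1))
    simpa only [← sub_eq_add_neg] using h1
  have hm : PC (fun t => M + t • r t) := (PC.const M).add (RS_pc_id hr)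
  have hD : PC (fun t => (M + t • r t) + t • ((M + t • r t) ^ 2 * Polynomial.aeval (f t - 1) Q)) :=
    hm.add (RS_pc_id ((hm.pow 2).mul (RS_pc_aeval hfe Q)))
  have key : ∀ t : ℚ, t • ((M + t • r t) + t • ((M + t • r t) ^ 2 * Polynomial.aeval (f t - 1) Q)) =
      Polynomial.aeval (f t - 1) P := by
    intro t
    rw [hP', map_add, map_mul, map_pow, Polynomial.aeval_X]
    have e : f t - 1 = t • (M + t • r t) := by
      rw [hf, smul_add, smul_smul, ← pow_two]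
      abel
    rw [smul_add, smul_smul, ← pow_two, ← smul_mul_assoc, ← smul_pow, ← e]
  have h0 := PC.mem_zero hD 𝔲 (fun t ht => by
    have h1 := h t
    rw [← key] at h1
    have h2 := 𝔲.smul_mem t⁻¹ h1
    rwa [smul_smul, inv_mul_cancel₀ ht, one_smul] at h2)
  simpa only [zero_smul, add_zero] using h0

/-! ### the filtration -/

theorem RS_fil_pow {n : ℕ} {W : ℕ → Submodule ℚ (VQ n)} (hW : Monotone W) {X : MQ n} (hX : X ∈ fil W 1) (i : ℕ) :
    X ^ (i + 1) ∈ fil W 1 := by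
  induction i with
  | zero => rw [zero_add, pow_one]; exact hX
  | succ i ih =>
    rw [pow_succ]
    exact fil_anti hW 1 (fil_mul ih hX)

theorem RS_fil_exp {n : ℕ} {W : ℕ → Submodule ℚ (VQ n)} {k : ℕ} (hW : Monotone W) (h0 : W 0 = ⊥) (hk : W k = ⊤)
    {X : MQ n} (hX : X ∈ fil W 1) : IsNilpotent.exp X - 1 ∈ fil W 1 := by
  obtain ⟨m, hm⟩ := fil_one_nil h0 hk hX
  have hm2 : X ^ (m + 1) = 0 := by rw [pow_add, hm, zero_mul]
  rw [IsNilpotent.exp_eq_sum hm2, Finset.sum_range_succ']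
  simp only [Nat.factorial_zero, Nat.cast_one, inv_one, pow_zero, one_smul, add_sub_cancel_right]
  exact (fil W 1).sum_mem fun i _ => (fil W 1).smul_mem _ (RS_fil_pow hW hX i)

theorem RS_fil_aeval {n : ℕ} {W : ℕ → Submodule ℚ (VQ n)} (hW : Monotone W) {X : MQ n} (hX : X ∈ fil W 1)
    (P : Polynomial ℚ) (hP : Polynomial.X ^ 2 ∣ P - Polynomial.X) : Polynomial.aeval X P ∈ fil W 1 := by
  obtain ⟨Q, hQ⟩ := hP
  have hP' : P = Polynomial.X + Polynomial.X ^ 2 * Q := by rw [← hQ]; ring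
  have h0 : P.coeff 0 = 0 := by
    rw [hP', Polynomial.coeff_zero_eq_eval_zero]
    simp
  rw [Polynomial.aeval_eq_sum_range, Finset.sum_range_succ', h0, zero_smul, add_zero]
  exact (fil W 1).sum_mem fun i _ => (fil W 1).smul_mem _ (RS_fil_pow hW hX i)

theorem RS_fil_mul {n : ℕ} {W : ℕ → Submodule ℚ (VQ n)} (hW : Monotone W) {A B : MQ n} (hA : A - 1 ∈ fil W 1)
    (hB : B - 1 ∈ fil W 1) : A * B - 1 ∈ fil W 1 := by
  have e : A * B - 1 = (A - 1) * (B - 1) + (A - 1) + (B - 1) := by noncomm_ring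
  rw [e]
  exact (fil W 1).add_mem ((fil W 1).add_mem (fil_anti hW 1 (fil_mul hA hB)) hA) hB

/-! ### group theory -/

theorem RS_grp {G : Type} [Group G] (PP EE : Subgroup G)
    (hc : ∀ x ∈ PP, ∀ y ∈ PP, x * y * x⁻¹ * y⁻¹ ∈ EE) (a b c z : G) (ha : a ∈ PP) (hb : b ∈ PP)
    (hcc : c ∈ PP) (hz : z ∈ PP) (h : a * b * c * z = 1) (j : ℕ) : a ^ j * b ^ j * c ^ j * z ^ j ∈ EE := by
  set N : Subgroup PP := EE.subgroupOf PP with hN
  have hnorm : N.Normal := by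
    constructor
    intro e he g
    rw [hN, Subgroup.mem_subgroupOf] at he ⊢
    have h1 := hc g.1 g.2 e.1 e.2
    have h2 := EE.mul_mem h1 he
    rw [inv_mul_cancel_right] at h2
    exact h2
  have hcomm : ∀ u v : PP ⧸ N, Commute u v := by
    intro u v
    obtain ⟨x, rfl⟩ := QuotientGroup.mk_surjective u
    obtain ⟨y, rfl⟩ := QuotientGroup.mk_surjective v
    show ((x * y : PP) : PP ⧸ N) = ((y * x : PP) : PP ⧸ N)
    rw [QuotientGroup.eq, hN, Subgroup.mem_subgroupOf]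
    have h1 := hc y.1⁻¹ (PP.inv_mem y.2) x.1⁻¹ (PP.inv_mem x.2)
    have e : ((((x * y)⁻¹ * (y * x) : PP)) : G) = y.1⁻¹ * x.1⁻¹ * y.1⁻¹⁻¹ * x.1⁻¹⁻¹ := by
      push_cast
      group
    rw [e]
    exact h1
  set a' : PP := ⟨a, ha⟩
  set b' : PP := ⟨b, hb⟩
  set c' : PP := ⟨c, hcc⟩
  set z' : PP := ⟨z, hz⟩
  have h1 : a' * b' * c' * z' = 1 := Subtype.ext h
  have h2 : ((a' ^ j * b' ^ j * c' ^ j * z' ^ j : PP) : PP ⧸ N) = 1 := by
    have e1 : ((a' ^ j * b' ^ j * c' ^ j * z' ^ j : PP) : PP ⧸ N) =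
        ((a' : PP ⧸ N) * (b' : PP ⧸ N) * (c' : PP ⧸ N) * (z' : PP ⧸ N)) ^ j := by
      rw [(hcomm _ _).mul_pow, (hcomm _ _).mul_pow, (hcomm _ _).mul_pow]
      rfl
    rw [e1]
    have e2 : ((a' : PP ⧸ N) * (b' : PP ⧸ N) * (c' : PP ⧸ N) * (z' : PP ⧸ N)) =
        ((a' * b' * c' * z' : PP) : PP ⧸ N) := rfl
    rw [e2, h1, QuotientGroup.mk_one, one_pow]
  rw [QuotientGroup.eq_one_iff, hN, Subgroup.mem_subgroupOf] at h2
  exact h2

/-! ### the main steps -/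

/-- the exponential as a unit -/
noncomputable def RS_un {n : ℕ} {X : MQ n} (hX : IsNilpotent X) : (MQ n)ˣ :=
  ⟨IsNilpotent.exp X, IsNilpotent.exp (-X), IsNilpotent.exp_mul_exp_neg_self hX, IsNilpotent.exp_neg_mul_exp_self hX⟩

theorem RS_zpow {n : ℕ} (hZG : ZG_stmt) (P : Subgroup (SLZ n)) {x : MQ n} (hx : x ∈ ZQ (mz P)) (j : ℕ) :
    x ^ j ∈ ZQ (mz P) := by
  induction j with
  | zero =>
    rw [pow_zero]
    exact subset_ZQ _ ⟨1, P.one_mem, qg_one.symm⟩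
  | succ j ih =>
    rw [pow_succ]
    exact (hZG n P).1 _ ih _ hx

theorem RS_rad_smul {n : ℕ} {P : Subgroup (SLZ n)} {W : ℕ → Submodule ℚ (VQ n)} {X : MQ n} (hX : Rad P W X) (c : ℚ) :
    Rad P W (c • X) := by
  refine ⟨fun i w hw => ?_, fun t => ?_⟩
  · rw [Matrix.smul_mulVec]
    exact (W i).smul_mem c (hX.1 i w hw)
  · rw [smul_smul]
    exact hX.2 _

theorem RS_rad_neg {n : ℕ} {P : Subgroup (SLZ n)} {W : ℕ → Submodule ℚ (VQ n)} {X : MQ n} (hX : Rad P W X) :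
    Rad P W (-X) := by
  have h := RS_rad_smul hX (-1)
  rwa [neg_one_smul] at h

theorem RS_rad_exp {n : ℕ} {P : Subgroup (SLZ n)} {W : ℕ → Submodule ℚ (VQ n)} {X : MQ n} (hX : Rad P W X) :
    IsNilpotent.exp X ∈ ZQ (mz P) := by
  have h := hX.2 1
  rwa [one_smul] at h

theorem RS_star (hZG : ZG_stmt) (hZC : ZC_stmt) (hZE : ZE_stmt) (hRL : RL_stmt) (hLG : UG.LG_stmt)
    (hEXJ : UG.EXJ_stmt) (n : ℕ) (P : Subgroup (SLZ n)) (𝔲 : Submodule ℚ (MQ n)) (k : ℕ)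
    (W : ℕ → Submodule ℚ (VQ n)) (hF : FS P 𝔲 k W) (X Y : MQ n) (hX : Rad P W X) (hY : Rad P W Y) :
    IsNilpotent.exp X * IsNilpotent.exp Y * IsNilpotent.exp (-(X + Y)) ∈ Ex 𝔲 := by
  have hC : Rad P W (-(X + Y)) := RS_rad_neg (hRL n P 𝔲 k W hF X Y hX hY)
  have hXf : X ∈ fil W 1 := (mem_fil_one hF.bot).2 hX.1
  have hYf : Y ∈ fil W 1 := (mem_fil_one hF.bot).2 hY.1
  have hCf : -(X + Y) ∈ fil W 1 := (mem_fil_one hF.bot).2 hC.1
  have hXn := fil_one_nil hF.bot hF.top hXf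
  have hYn := fil_one_nil hF.bot hF.top hYf
  have hCn := fil_one_nil hF.bot hF.top hCf
  obtain ⟨Pl, hPl, hlog1, hlog2⟩ := hLG n
  have hZE' : ZQ (Ex 𝔲) ⊆ Ex 𝔲 := hZE n 𝔲 k W hF.bot hF.top hF.down
  have hcomE : ∀ x ∈ ZQ (mz P), ∀ y ∈ ZQ (mz P), x * y * x⁻¹ * y⁻¹ ∈ Ex 𝔲 :=
    hZC n P (Ex 𝔲) hZE' (fun g hg h hh => hF.com g hg h hh)
  set A : MQ n := IsNilpotent.exp X * IsNilpotent.exp Y * IsNilpotent.exp (-(X + Y)) with hA
  have hAf : A - 1 ∈ fil W 1 :=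
    RS_fil_mul hF.mono (RS_fil_mul hF.mono (RS_fil_exp hF.mono hF.bot hF.top hXf)
      (RS_fil_exp hF.mono hF.bot hF.top hYf)) (RS_fil_exp hF.mono hF.bot hF.top hCf)
  set Z : MQ n := Polynomial.aeval (A - 1) Pl with hZ
  have hZf : Z ∈ fil W 1 := RS_fil_aeval hF.mono hAf Pl hPl
  have hZn := fil_one_nil hF.bot hF.top hZf
  have hexpZ : IsNilpotent.exp Z = A := by
    rw [hZ, hlog1 _ (fil_one_nil hF.bot hF.top hAf)]
    abel
  have hnZ : IsNilpotent (-Z) := hZn.neg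
  have hAP : A ∈ ZQ (mz P) :=
    (hZG n P).1 _ ((hZG n P).1 _ (RS_rad_exp hX) _ (RS_rad_exp hY)) _ (RS_rad_exp hC)
  -- the unit groups
  let PP : Subgroup (MQ n)ˣ :=
    { carrier := {u | (u : MQ n) ∈ ZQ (mz P)}
      one_mem' := by
        show ((1 : (MQ n)ˣ) : MQ n) ∈ ZQ (mz P)
        rw [Units.val_one]
        exact subset_ZQ _ ⟨1, P.one_mem, qg_one.symm⟩
      mul_mem' := by
        intro u v hu hv
        show ((u * v : (MQ n)ˣ) : MQ n) ∈ ZQ (mz P)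
        rw [Units.val_mul]
        exact (hZG n P).1 _ hu _ hv
      inv_mem' := by
        intro u hu
        show ((u⁻¹ : (MQ n)ˣ) : MQ n) ∈ ZQ (mz P)
        rw [Matrix.coe_units_inv]
        exact ((hZG n P).2 _ hu).2 }
  let EE : Subgroup (MQ n)ˣ :=
    { carrier := {u | (u : MQ n) ∈ Ex 𝔲}
      one_mem' := by
        show ((1 : (MQ n)ˣ) : MQ n) ∈ Ex 𝔲
        exact ⟨0, 𝔲.zero_mem, by rw [IsNilpotent.exp_zero, Units.val_one]⟩
      mul_mem' := by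
        rintro u v ⟨a, ha, hu⟩ ⟨b, hb, hv⟩
        obtain ⟨c, hc, h⟩ := hF.grp a ha b hb
        exact ⟨c, hc, by rw [Units.val_mul, hu, hv, h]⟩
      inv_mem' := by
        rintro u ⟨a, ha, hu⟩
        refine ⟨-a, 𝔲.neg_mem ha, ?_⟩
        have han : IsNilpotent a := fil_one_nil hF.bot hF.top ((mem_fil_one hF.bot).2 (hF.down a ha))
        rw [Units.inv_eq_of_mul_eq_one_right]
        rw [hu]
        exact IsNilpotent.exp_mul_exp_neg_self han }
  have hc : ∀ x ∈ PP, ∀ y ∈ PP, x * y * x⁻¹ * y⁻¹ ∈ EE := by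
    intro x hx y hy
    show ((x * y * x⁻¹ * y⁻¹ : (MQ n)ˣ) : MQ n) ∈ Ex 𝔲
    rw [Units.val_mul, Units.val_mul, Units.val_mul, Matrix.coe_units_inv, Matrix.coe_units_inv]
    exact hcomE _ hx _ hy
  have hzP : RS_un hnZ ∈ PP := by
    have e : RS_un hnZ = (RS_un hZn)⁻¹ := by
      apply Units.ext
      rfl
    rw [e]
    apply PP.inv_mem
    show IsNilpotent.exp Z ∈ ZQ (mz P)
    rw [hexpZ]
    exact hAP
  have hprod : RS_un hXn * RS_un hYn * RS_un hCn * RS_un hnZ = 1 := by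
    apply Units.ext
    show IsNilpotent.exp X * IsNilpotent.exp Y * IsNilpotent.exp (-(X + Y)) * IsNilpotent.exp (-Z) = 1
    rw [← hA, ← hexpZ]
    exact IsNilpotent.exp_mul_exp_neg_self hZn
  have hJ : RS_J (fun t : ℚ => IsNilpotent.exp (t • X) * IsNilpotent.exp (t • Y) * IsNilpotent.exp (t • -(X + Y)) *
      IsNilpotent.exp (t • -Z)) (X + Y + -(X + Y) + -Z) :=
    RS_J_mul (RS_J_mul (RS_J_mul (RS_J_exp hXn) (RS_J_exp hYn)) (RS_J_exp hCn)) (RS_J_exp hnZ)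
  have hmem : ∀ t : ℚ, IsNilpotent.exp (t • X) * IsNilpotent.exp (t • Y) * IsNilpotent.exp (t • -(X + Y)) *
      IsNilpotent.exp (t • -Z) ∈ Ex 𝔲 := by
    intro t
    apply hZE'
    refine RS_mem (RS_J_pc hJ) (Ex 𝔲) (fun j => ?_) t
    have h := RS_grp PP EE hc (RS_un hXn) (RS_un hYn) (RS_un hCn) (RS_un hnZ) (RS_rad_exp hX) (RS_rad_exp hY)
      (RS_rad_exp hC) hzP hprod j
    have h' : IsNilpotent.exp X ^ j * IsNilpotent.exp Y ^ j * IsNilpotent.exp (-(X + Y)) ^ j * IsNilpotent.exp (-Z) ^ j ∈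
        Ex 𝔲 := h
    rw [(hEXJ n X hXn).1, (hEXJ n Y hYn).1, (hEXJ n _ hCn).1, (hEXJ n _ hnZ).1] at h'
    exact h'
  have hlogm : ∀ t : ℚ, Polynomial.aeval (IsNilpotent.exp (t • X) * IsNilpotent.exp (t • Y) *
      IsNilpotent.exp (t • -(X + Y)) * IsNilpotent.exp (t • -Z) - 1) Pl ∈ 𝔲 := by
    intro t
    obtain ⟨a, ha, h⟩ := hmem t
    rw [h, hlog2 a (fil_one_nil hF.bot hF.top ((mem_fil_one hF.bot).2 (hF.down a ha)))]
    exact ha
  have hfin := RS_J_log hJ Pl hPl 𝔲 hlogm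
  rw [add_neg_cancel, zero_add] at hfin
  exact ⟨Z, by rw [← neg_neg Z]; exact 𝔲.neg_mem hfin, hexpZ.symm⟩

theorem RS_main (hZG : ZG_stmt) (hZC : ZC_stmt) (hZE : ZE_stmt) (hRL : RL_stmt) (hLG : UG.LG_stmt)
    (hEI : EI_stmt) (hEXJ : UG.EXJ_stmt) : RS_stmt := by
  intro n P 𝔲 k W hF X Y hX hY
  have hS : Rad P W (X + Y) := hRL n P 𝔲 k W hF X Y hX hY
  have hC : Rad P W (-(X + Y)) := RS_rad_neg hS
  have hXf : X ∈ fil W 1 := (mem_fil_one hF.bot).2 hX.1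
  have hYf : Y ∈ fil W 1 := (mem_fil_one hF.bot).2 hY.1
  obtain ⟨Pl, hPl, hlog1, hlog2⟩ := hLG n
  have hBf : IsNilpotent.exp X * IsNilpotent.exp Y - 1 ∈ fil W 1 :=
    RS_fil_mul hF.mono (RS_fil_exp hF.mono hF.bot hF.top hXf) (RS_fil_exp hF.mono hF.bot hF.top hYf)
  set Z : MQ n := Polynomial.aeval (IsNilpotent.exp X * IsNilpotent.exp Y - 1) Pl with hZ
  have hZf : Z ∈ fil W 1 := RS_fil_aeval hF.mono hBf Pl hPl
  have hZn := fil_one_nil hF.bot hF.top hZf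
  have hexpZ : IsNilpotent.exp Z = IsNilpotent.exp X * IsNilpotent.exp Y := by
    rw [hZ, hlog1 _ (fil_one_nil hF.bot hF.top hBf)]
    abel
  have hZR : Rad P W Z := by
    refine ⟨(mem_fil_one hF.bot).1 hZf, fun t => ?_⟩
    have h := RS_mem (hEXJ n Z hZn).2.2.2.2.2.2.1 (ZQ (mz P)) (fun j => by
      rw [← (hEXJ n Z hZn).1 j, hexpZ]
      exact RS_zpow hZG P ((hZG n P).1 _ (RS_rad_exp hX) _ (RS_rad_exp hY)) j) t
    exact ZQ_min (fun x hx => hx) h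
  refine ⟨Z, hZR, hexpZ.symm, ?_⟩
  obtain ⟨a, ha, h1⟩ := RS_star hZG hZC hZE hRL hLG hEXJ n P 𝔲 k W hF X Y hX hY
  obtain ⟨b, hb, h2⟩ := RS_star hZG hZC hZE hRL hLG hEXJ n P 𝔲 k W hF Z (-(X + Y)) hZR hC
  rw [hexpZ, h1] at h2
  have han : IsNilpotent a := fil_one_nil hF.bot hF.top ((mem_fil_one hF.bot).2 (hF.down a ha))
  obtain ⟨c, hc, h3⟩ := hF.grp (-a) (𝔲.neg_mem ha) b hb
  rw [← h2, ← mul_assoc, IsNilpotent.exp_neg_mul_exp_self han, one_mul] at h3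
  have hDf : -(Z + -(X + Y)) ∈ fil W 1 :=
    (fil W 1).neg_mem ((fil W 1).add_mem hZf ((fil W 1).neg_mem ((fil W 1).add_mem hXf hYf)))
  have h4 := hEI n _ c (fil_one_nil hF.bot hF.top hDf)
    (fil_one_nil hF.bot hF.top ((mem_fil_one hF.bot).2 (hF.down c hc))) h3
  have h5 : Z - X - Y = -c := by
    rw [← h4]
    abel
  rw [h5]
  exact 𝔲.neg_mem hc

theorem RS (hZG : ZG_stmt) (hZC : ZC_stmt) (hZE : ZE_stmt) (hRL : RL_stmt) (hRU : RU_stmt) (hLG : UG.LG_stmt)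
    (hEI : EI_stmt) (hEXJ : UG.EXJ_stmt) : RS_stmt :=
  RS_main hZG hZC hZE hRL hLG hEI hEXJ

end Pool.Agent.BS
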