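import Pool.Agent.helper73.BS.Spec2

set_option autoImplicit false

namespace Pool.Agent.BS

open Matrix Module Pool.Agent.UG Pool.Agent.H48SL Pool.Agent.SHL
open scoped commutatorElement

/-- rational matrices as endomorphisms over the algebraic closure -/
noncomputable def FU_phi (n : ℕ) : MQ n →+* Module.End KB (Fin n → KB) :=
  ((Matrix.toLinAlgEquiv' : Matrix (Fin n) (Fin n) KB ≃ₐ[KB] ((Fin n → KB) →ₗ[KB] Fin n → KB)) :
    Matrix (Fin n) (Fin n) KB →+* ((Fin n → KB) →ₗ[KB] Fin n → KB)).comp (algebraMap ℚ KB).mapMatrix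

theorem FU_phi_inj (n : ℕ) : Function.Injective (FU_phi n) := by
  intro A B h
  have h1 : (algebraMap ℚ KB).mapMatrix A = (algebraMap ℚ KB).mapMatrix B :=
    (Matrix.toLinAlgEquiv' : Matrix (Fin n) (Fin n) KB ≃ₐ[KB] ((Fin n → KB) →ₗ[KB] Fin n → KB)).injective h
  ext i j
  have h2 := congrFun (congrFun h1 i) j
  exact (algebraMap ℚ KB).injective h2

theorem FU_nil {n : ℕ} (A : MQ n) : IsNilpotent (FU_phi n A - 1) ↔ IsNilpotent (A - 1) := by
  have e : FU_phi n A - 1 = FU_phi n (A - 1) := by rw [map_sub, map_one]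
  rw [e]
  exact IsNilpotent.map_iff (FU_phi_inj n)

theorem FU (hMAL : PR.Z_MAL_stmt) (hUNIP : PR.Z_UNIP_stmt) : FU_stmt := by
  intro n P hP
  obtain ⟨G₁, hG₁, htri⟩ := hMAL KB (Fin n → KB) P hP
    ((FU_phi n : MQ n →* Module.End KB (Fin n → KB)).comp ((qgHom n).comp P.subtype))
  set ρ : P →* Module.End KB (Fin n → KB) :=
    (FU_phi n : MQ n →* Module.End KB (Fin n → KB)).comp ((qgHom n).comp P.subtype) with hρ
  have hρinj : Function.Injective ρ := by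
    intro a b h
    have h1 : qg (a : SLZ n) = qg (b : SLZ n) := FU_phi_inj n h
    exact Subtype.ext (qg_inj h1)
  obtain ⟨U₀, hU₀n, hU₀c, hU₀, _⟩ := hUNIP KB (Fin n → KB) G₁ (ρ.comp G₁.subtype) htri
    (hρinj.comp (Subgroup.subtype_injective G₁))
  set r : SLZ n →* Matrix.SpecialLinearGroup (Fin n) (ZMod 3) :=
    Matrix.SpecialLinearGroup.map (Int.castRingHom (ZMod 3)) with hr
  set P₁ : Subgroup (SLZ n) := G₁.map P.subtype ⊓ r.ker with hP₁
  refine ⟨P₁, (U₀.map G₁.subtype).map P.subtype ⊓ P₁, ?_, inf_le_right, ?_, ?_, ?_, ?_⟩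
  · rintro g ⟨⟨x, _, rfl⟩, _⟩
    exact x.2
  · intro g hg
    obtain ⟨j, hj, -, hjG⟩ := Subgroup.exists_pow_mem_of_index_ne_zero hG₁.index_ne_zero (⟨g, hg⟩ : P)
    have hfin : Finite (Matrix.SpecialLinearGroup (Fin n) (ZMod 3)) := inferInstance
    obtain ⟨k, hk, hk1⟩ := (isOfFinOrder_of_finite (r (g ^ j))).exists_pow_eq_one
    refine ⟨j * k, Nat.mul_pos hj hk, ?_, ?_⟩
    · refine ⟨(⟨g, hg⟩ : P) ^ (j * k), ?_, ?_⟩
      · rw [pow_mul]
        exact G₁.pow_mem hjG k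
      · rfl
    · show r (g ^ (j * k)) = 1
      rw [pow_mul, map_pow]
      exact hk1
  · rintro g ⟨_, hg⟩ i j
    have h1 : r g = 1 := hg
    have h2 : (((g : Matrix (Fin n) (Fin n) ℤ) i j : ℤ) : ZMod 3) = (1 : Matrix (Fin n) (Fin n) (ZMod 3)) i j := by
      have h3 := congrArg (fun x : Matrix.SpecialLinearGroup (Fin n) (ZMod 3) =>
        (x : Matrix (Fin n) (Fin n) (ZMod 3)) i j) h1
      exact h3
    have h4 : (1 : Matrix (Fin n) (Fin n) (ZMod 3)) i j = (((1 : Matrix (Fin n) (Fin n) ℤ) i j : ℤ) : ZMod 3) := by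
      rw [Matrix.one_apply, Matrix.one_apply]
      split_ifs <;> simp
    rw [h4] at h2
    have h5 := (ZMod.intCast_eq_intCast_iff_dvd_sub _ _ _).1 h2.symm
    exact_mod_cast h5
  · rintro g hg
    obtain ⟨⟨x, hx, rfl⟩, hg2⟩ := hg
    constructor
    · rintro ⟨⟨_, ⟨y, hy, rfl⟩, hyx⟩, _⟩
      have h1 := (hU₀ y).1 hy
      have h2 : IsNilpotent (FU_phi n (qg ((y : P) : SLZ n)) - 1) := h1
      rw [FU_nil] at h2
      have h3 : ((y : P) : SLZ n) = x := hyx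
      rw [h3] at h2
      exact h2
    · intro h
      refine ⟨⟨x, ⟨⟨x, hx⟩, ?_, rfl⟩, rfl⟩, ⟨x, hx, rfl⟩, hg2⟩
      show (⟨x, hx⟩ : G₁) ∈ U₀
      rw [hU₀]
      show IsNilpotent (FU_phi n (qg (x : SLZ n)) - 1)
      rw [FU_nil]
      exact h
  · rintro g hg h hh
    refine ⟨?_, P₁.mul_mem (P₁.mul_mem (P₁.mul_mem hg hh) (P₁.inv_mem hg)) (P₁.inv_mem hh)⟩
    obtain ⟨⟨x, hx, rfl⟩, hg2⟩ := hg
    obtain ⟨⟨y, hy, rfl⟩, hh2⟩ := hh
    have h1 : ⁅(⟨x, hx⟩ : G₁), (⟨y, hy⟩ : G₁)⁆ ∈ commutator G₁ := by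
      rw [commutator_def]
      exact Subgroup.commutator_mem_commutator (Subgroup.mem_top _) (Subgroup.mem_top _)
    have h2 := hU₀c h1
    have h3 : G₁.subtype ⁅(⟨x, hx⟩ : G₁), (⟨y, hy⟩ : G₁)⁆ ∈ U₀.map G₁.subtype := Subgroup.mem_map_of_mem _ h2
    rw [map_commutatorElement] at h3
    have h4 := Subgroup.mem_map_of_mem P.subtype h3
    rw [map_commutatorElement] at h4
    exact h4

end Pool.Agent.BS
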