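import Pool.Agent.helper73.BS.Spec2
import Pool.Agent.helper82.NH.FLG

set_option autoImplicit false

namespace Pool.Agent.BS

open Matrix Module Pool.Agent.UG Pool.Agent.H48SL Pool.Agent.SHL

theorem HL_aux (hHA : SHL.HA_stmt) (hHB : SHL.HB_stmt) (hTOR : SHL.TOR_stmt) (hSTR : SHL.STR_stmt)
    (hDR : DR_stmt) (n : ℕ) :
    ∀ (V : Type) [AddCommGroup V] [Module ℚ V] [FiniteDimensional ℚ V] (Q : Type) [Group Q], finrank ℚ V = n →
    Group.IsSolvable Q → ∀ ρ : Q →* Module.End ℚ V, (∀ g, IsIntegral ℤ (ρ g)) → ∀ (N : ℕ) (u : V), u ≠ 0 →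
    Hi (N + finrank ℚ V) (⊤ : Subgroup Q) → Hi (N + 1) (stR ρ u) := by
  induction n using Nat.strong_induction_on with
  | _ n ih =>
  intro V _ _ _ Q _ hn hQ ρ hint N u hu hN
  have hVnt : Nontrivial V := ⟨⟨u, 0, hu⟩⟩
  obtain ⟨G₁, L₀, hG₁, hL0, hL, hcomm, hmin⟩ := hSTR ℚ V Q hQ ρ
  obtain ⟨lam, hlam⟩ := STP_lam ρ G₁ L₀ hL
  obtain ⟨mu, hmu⟩ := STP_mu ρ G₁ L₀ hL
  have h1 : Hi (N + finrank ℚ V) G₁ := by
    have h := (hHA Q).2.2.1 (N + finrank ℚ V) ⊤ G₁
      (by rw [Subgroup.relIndex_top_right]; exact hG₁.index_ne_zero) hN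
    rwa [inf_top_eq] at h
  have htop : ∀ (G : Type) [Group G] (H : Subgroup G) (M : ℕ), Hi M H → Hi M (⊤ : Subgroup H) := by
    intro G _ H M hM
    have h := (hHA G).2.2.2.2.2 H H.subtype (Subgroup.subtype_injective _) M H
      (le_of_eq (Subgroup.range_subtype _).symm) hM
    have h3 : H.comap H.subtype = ⊤ := by
      rw [eq_top_iff]
      intro x _
      exact x.2
    rwa [h3] at h
  have hdown : ∀ (G : Type) [Group G] (H : Subgroup G) (M k : ℕ), Hi (M + k) H → Hi M H := by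
    intro G _ H M k
    induction k with
    | zero => exact fun h => h
    | succ k ihk => exact fun h => ihk ((hHA G).2.1 (M + k) H h)
  have h2 : Hi (N + finrank ℚ V) (⊤ : Subgroup G₁) := htop Q G₁ _ h1
  have hLnt : Nontrivial L₀ := Submodule.nontrivial_iff_ne_bot.2 hL0
  by_cases huL : u ∈ L₀
  · obtain ⟨a', c, hac, ha', hc⟩ := hHB G₁ (Module.End ℚ L₀)ˣ lam.toHomUnits _ ⊤ h2
    -- the torus part
    have hcL : c + 1 ≤ finrank ℚ L₀ := by
      have hc' := STP_range hHA lam.toHomUnits c _ hc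
      have h3 := hTOR ℚ 1 inferInstance (by rw [finrank_self]) L₀ lam.toHomUnits.range
        ((Units.coeHom (Module.End ℚ L₀)).comp lam.toHomUnits.range.subtype) ?_ ?_ ?_ ?_ c hc'
      · rwa [one_mul] at h3
      · intro u v huv
        apply Subtype.ext
        exact Units.ext huv
      · rintro ⟨_, g, rfl⟩ ⟨_, h, rfl⟩
        show lam g * lam h = lam h * lam g
        rw [← map_mul, ← map_mul]
        ext w
        rw [hlam, hlam]
        exact hcomm g g.2 h h.2 w w.2
      · intro W hW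
        have hW' : ∀ g ∈ G₁, ∀ w ∈ W.map L₀.subtype, ρ g w ∈ W.map L₀.subtype := by
          rintro g hg _ ⟨w, hw, rfl⟩
          refine ⟨lam ⟨g, hg⟩ w, hW ⟨lam.toHomUnits ⟨g, hg⟩, ⟨g, hg⟩, rfl⟩ w hw, ?_⟩
          exact hlam ⟨g, hg⟩ w
        rcases hmin (W.map L₀.subtype) (Submodule.map_subtype_le L₀ W) hW' with h | h
        · left
          rw [eq_bot_iff]
          intro w hw
          have hw2 : (w : V) ∈ W.map L₀.subtype := ⟨w, hw, rfl⟩
          rw [h, Submodule.mem_bot] at hw2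
          exact (Submodule.mem_bot ℚ).2 (Subtype.ext hw2)
        · right
          rw [eq_top_iff]
          intro w _
          have hw : (w : V) ∈ W.map L₀.subtype := by rw [h]; exact w.2
          obtain ⟨w', hw', hww'⟩ := hw
          have : w' = w := Subtype.ext hww'
          rwa [← this]
      · rintro ⟨_, g, rfl⟩
        exact STP_int_sub L₀.subtype (Submodule.subtype_injective L₀) (lam g) (ρ g)
          (fun v => hlam g v) (hint g)
    rw [top_inf_eq] at ha'
    have hle : finrank ℚ L₀ ≤ finrank ℚ V := Submodule.finrank_le L₀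
    obtain ⟨k, hk⟩ : ∃ k, a' = N + 1 + k := ⟨a' - (N + 1), by omega⟩
    rw [hk] at ha'
    have h4 := hdown G₁ _ _ _ ha'
    have h5 := Pool.Agent.NH.FLG_map G₁.subtype (Subgroup.subtype_injective _) (N + 1) _ h4
    refine (hHA Q).1 (N + 1) _ _ ?_ h5
    rintro _ ⟨g, hg, rfl⟩
    rw [mem_stR]
    have hy2 : lam.toHomUnits g = 1 := MonoidHom.mem_ker.1 hg
    have hy4 : lam g = 1 := congrArg Units.val hy2
    have h6 := hlam g ⟨u, huL⟩
    rw [hy4] at h6
    exact h6.symm
  · have hdim : finrank ℚ (V ⧸ L₀) + finrank ℚ L₀ = finrank ℚ V := Submodule.finrank_quotient_add_finrank L₀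
    have hpos : 0 < finrank ℚ L₀ := finrank_pos
    have hsolv : Group.IsSolvable G₁ := inferInstance
    have hu' : L₀.mkQ u ≠ 0 := by
      rw [Submodule.mkQ_apply, Ne, Submodule.Quotient.mk_eq_zero]
      exact huL
    have h3 : Hi (N + finrank ℚ L₀ + finrank ℚ (V ⧸ L₀)) (⊤ : Subgroup G₁) := by
      have e : N + finrank ℚ L₀ + finrank ℚ (V ⧸ L₀) = N + finrank ℚ V := by omega
      rw [e]
      exact h2
    have h4 := ih (finrank ℚ (V ⧸ L₀)) (by omega) (V ⧸ L₀) G₁ rfl hsolv mu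
      (fun g => STP_int_quot L₀.mkQ (Submodule.mkQ_surjective L₀) (ρ (g : Q)) (mu g)
        (fun v => (hmu g v).symm) (hint _)) (N + finrank ℚ L₀) (L₀.mkQ u) hu' h3
    have h5 := htop G₁ (stR mu (L₀.mkQ u)) _ h4
    have e : N + finrank ℚ L₀ + 1 = (N + 1) + finrank ℚ L₀ := by omega
    rw [e] at h5
    have h6 := hDR V (stR mu (L₀.mkQ u)) ((ρ.comp G₁.subtype).comp (stR mu (L₀.mkQ u)).subtype)
      (fun g => hint _) L₀ u (fun g w hw => hL _ g.1.2 w hw)
      (fun g h w hw => hcomm _ g.1.2 _ h.1.2 w hw) ?_ ?_ (N + 1) h5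
    · have h7 := Pool.Agent.NH.FLG_map (stR mu (L₀.mkQ u)).subtype (Subgroup.subtype_injective _) (N + 1) _ h6
      have h8 := Pool.Agent.NH.FLG_map G₁.subtype (Subgroup.subtype_injective _) (N + 1) _ h7
      refine (hHA Q).1 (N + 1) _ _ ?_ h8
      rintro _ ⟨_, ⟨g, hg, rfl⟩, rfl⟩
      exact hg
    · intro g
      let W : Submodule ℚ V :=
        { carrier := {w | w ∈ L₀ ∧ ρ (g.1 : Q) w = w}
          add_mem' := by
            rintro a b ⟨ha, ha'⟩ ⟨hb, hb'⟩
            refine ⟨L₀.add_mem ha hb, ?_⟩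
            rw [map_add, ha', hb']
          zero_mem' := ⟨L₀.zero_mem, map_zero _⟩
          smul_mem' := by
            rintro c a ⟨ha, ha'⟩
            refine ⟨L₀.smul_mem c ha, ?_⟩
            rw [map_smul, ha'] }
      have hW : ∀ h ∈ G₁, ∀ w ∈ W, ρ h w ∈ W := by
        rintro h hh w ⟨hw, hw'⟩
        refine ⟨hL h hh w hw, ?_⟩
        have h7 := hcomm _ g.1.2 h hh w hw
        rw [map_mul, map_mul, Module.End.mul_apply, Module.End.mul_apply, hw'] at h7
        exact h7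
      rcases hmin W (fun w hw => hw.1) hW with h | h
      · right
        intro w hw hw'
        have : w ∈ W := ⟨hw, hw'⟩
        rw [h] at this
        exact (Submodule.mem_bot ℚ).1 this
      · left
        intro w hw
        have : w ∈ W := by rw [h]; exact hw
        exact this.2
    · intro g
      have h7 : mu g.1 (L₀.mkQ u) = L₀.mkQ u := g.2
      rw [hmu, ← sub_eq_zero, ← map_sub, Submodule.mkQ_apply, Submodule.Quotient.mk_eq_zero] at h7
      exact h7

theorem HL (hHA : SHL.HA_stmt) (hHB : SHL.HB_stmt) (hTOR : SHL.TOR_stmt) (hSTR : SHL.STR_stmt)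
    (hDR : DR_stmt) : HL_stmt := by
  intro V _ _ _ Q _ hQ ρ hint N u hu hN
  exact HL_aux hHA hHB hTOR hSTR hDR (finrank ℚ V) V Q rfl hQ ρ hint N u hu hN

end Pool.Agent.BS
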